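import Mathlib
import Pool.Agent.H8.HypP

set_option autoImplicit false

namespace Pool.Agent.Results.MP_6bb0fd_an.NotMonotone

open Polynomial Pool.Agent.H8.HypP

/-- `p ↦ (x - D)(1 - D) p(x+1)`. -/
noncomputable def T : ℝ[X] →ₗ[ℝ] ℝ[X] :=
  (LinearMap.mulLeft ℝ (X : ℝ[X]) - derivative) ∘ₗ (LinearMap.id - derivative) ∘ₗ taylor (1 : ℝ)

/-- Taylor coefficients of `(1 - w) e^w`. -/
noncomputable def φ (k : ℕ) : ℝ := 1 / k.factorial - sh (fun j => 1 / j.factorial) k

/-- The coefficient polynomials. -/
noncomputable def Q (k : ℕ) : ℝ[X] := C (φ k) * X - C (sh φ k)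

theorem T_apply (p : ℝ[X]) : T p = X * (taylor 1 p - derivative (taylor 1 p)) -
    derivative (taylor 1 p - derivative (taylor 1 p)) := rfl

theorem der_tay (p : ℝ[X]) : derivative (taylor (1 : ℝ) p) = taylor 1 (derivative p) := by
  simp [taylor_apply, derivative_comp]

theorem phi_succ (k : ℕ) : φ (k + 1) = -(k : ℝ) / (k + 1).factorial := by
  have : (k.factorial : ℝ) ≠ 0 := by exact_mod_cast k.factorial_ne_zero
  simp only [φ, sh, Nat.factorial_succ]
  push_cast
  field_simp
  ring

theorem step (p : ℝ[X]) (N : ℕ) (hN : p.natDegree < N) (x : ℝ) :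
    (taylor 1 p - derivative (taylor 1 p)).eval x =
      ∑ k ∈ Finset.range N, φ k * (derivative^[k] p).eval x := by
  rw [der_tay, eval_sub, taylor_eval, taylor_eval, add_comm x 1, tay p N hN,
    tay (derivative p) N ((natDegree_derivative_le p).trans_lt (by omega))]
  have h := sum_sh (fun j => 1 / j.factorial) (fun k => (derivative^[k] p).eval x) N
    (by simp [iterate_derivative_eq_zero hN])
  simp only [φ, sub_mul, Finset.sum_sub_distrib, ← h]
  congr 1
  · exact Finset.sum_congr rfl fun k _ => by ring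
  · exact Finset.sum_congr rfl fun k _ => by rw [Function.iterate_succ_apply]; ring

theorem rep (p : ℝ[X]) :
    T p = ∑ k ∈ Finset.range (p.natDegree + 1), Q k * derivative^[k] p := by
  apply Polynomial.funext
  intro x
  have e : derivative (taylor 1 p - derivative (taylor 1 p)) =
      taylor 1 (derivative p) - derivative (taylor 1 (derivative p)) := by
    rw [derivative_sub, der_tay]
  rw [T_apply, e, eval_sub, eval_mul, eval_X, step p _ (Nat.lt_succ_self _),
    step (derivative p) (p.natDegree + 1) ((natDegree_derivative_le p).trans_lt (by omega)),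
    eval_finsetSum]
  have h := sum_sh φ (fun k => (derivative^[k] p).eval x) (p.natDegree + 1)
    (by simp [iterate_derivative_eq_zero (Nat.lt_succ_self p.natDegree)])
  simp only [← Function.iterate_succ_apply]
  rw [h, Finset.mul_sum, ← Finset.sum_sub_distrib]
  refine Finset.sum_congr rfl fun k _ => ?_
  simp only [Q, eval_mul, eval_sub, eval_C, eval_X]
  ring

theorem St_T {p : ℝ[X]} (hp : ∀ z : ℂ, aeval z p = 0 → z.im = 0) :
    St ((T p).map (algebraMap ℝ ℂ)) := by
  have h1 : St ((taylor 1 p).map (algebraMap ℝ ℂ)) := by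
    intro z hz h0
    rw [eval_map_algebraMap, taylor_apply, aeval_comp] at h0
    have := hp _ h0
    simp at this
    exact hz.ne' this
  have h2 := h1.sub_deriv.X_mul_sub_deriv
  rw [T_apply]
  simpa only [Polynomial.map_sub, Polynomial.map_mul, map_X, derivative_map, derivative_sub]
    using h2

theorem T_inj : Function.Injective T := by
  rw [← LinearMap.ker_eq_bot, LinearMap.ker_eq_bot']
  intro p hp
  rw [T_apply, sub_eq_zero] at hp
  have h1 : taylor 1 p - derivative (taylor 1 p) = 0 := by
    by_contra h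
    have := degree_derivative_lt h
    rw [← hp, degree_mul, degree_X, degree_eq_natDegree h] at this
    norm_cast at this
    omega
  have h2 : taylor (1 : ℝ) p = 0 := by
    by_contra h
    have := degree_derivative_lt h
    rw [← sub_eq_zero.1 h1] at this
    exact lt_irrefl _ this
  exact (taylor_injective 1) (by rw [h2, map_zero])

theorem result :
    ∃ (T : ℝ[X] →ₗ[ℝ] ℝ[X]) (Q : ℕ → ℝ[X]),
      (∀ p : ℝ[X], T p = ∑ k ∈ Finset.range (p.natDegree + 1), Q k * derivative^[k] p) ∧
      (∀ k, Q k ≠ 0) ∧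
      (∀ p : ℝ[X], (p = 0 ∨ ∀ z : ℂ, aeval z p = 0 → z.im = 0) →
        (T p = 0 ∨ ∀ z : ℂ, aeval z (T p) = 0 → z.im = 0)) ∧
      Function.Injective T ∧ 3 ≤ Module.rank ℝ (LinearMap.range T) ∧
      (Q 1).degree < (Q 0).degree := by
  have q0 : Q 0 = X := by simp [Q, φ, sh]
  have q1 : Q 1 = C (-1) := by simp [Q, φ, sh]
  refine ⟨T, Q, rep, ?_, ?_, T_inj, ?_, ?_⟩
  · intro k hk
    rcases k with _ | _ | k
    · exact X_ne_zero (q0 ▸ hk)
    · rw [q1] at hk; simp at hk
    · have := congrArg (fun r => r.coeff 1) hk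
      simp only [Q, coeff_sub, coeff_C_mul, coeff_X_one, mul_one, coeff_C_succ, sub_zero,
        coeff_zero, phi_succ] at this
      have h1 : ((k + 1 + 1).factorial : ℝ) ≠ 0 := by exact_mod_cast Nat.factorial_ne_zero _
      rw [div_eq_zero_iff] at this
      rcases this with h | h
      · have : ((k + 1 : ℕ) : ℝ) ≠ 0 := by positivity
        exact this (neg_eq_zero.1 h)
      · exact h1 h
  · rintro p (rfl | hp)
    · left; simp
    · right; exact hyp_of_St (St_T hp)
  · rw [rank_range_of_injective T T_inj, ← (basisMonomials ℝ).mk_eq_rank'', Cardinal.mk_nat]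
    exact (Cardinal.natCast_lt_aleph0 (n := 3)).le
  · rw [q0, q1, degree_X, degree_C (by norm_num)]
    exact zero_lt_one

end Pool.Agent.Results.MP_6bb0fd_an.NotMonotone
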